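import Pool.Graph.R_pool_sql_team_seeded_620a6dc7.H860EM.Main

set_option autoImplicit false

/-! Cohesive sets preserve fairness. -/

open Set Topology H860EM

namespace Pool.Agent.H56EMW

variable {K : Set Op} {f : ℕ → ℕ → Bool} {X : Om}

def opCoh (F : Finset ℕ) (W : Op) : Op := fun s =>
  {Z | ∃ E : Finset ℕ, (∀ x ∈ E, rt Z x = true) ∧ jn (lf Z) (chf (F ∪ E)) ∈ W s}

lemma isOpen_opCoh {W : Op} (hW : ∀ s, IsOpen (W s)) (F : Finset ℕ) (s : Node) :
    IsOpen (opCoh F W s) := by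
  refine isOpen_ex fun E => IsOpen.and ?_ ?_
  · exact isOpen_ball E fun x _ => isOpen_bit continuous_rt x true
  · exact (hW s).preimage ((continuous_jn_left (chf (F ∪ E))).comp continuous_lf)

def cut (i : ℕ) (v : Bool) (Z : Om) : Om :=
  jn (lf Z) (fun x => rt Z x && (rt (lf Z) (Nat.pair i x) == v))

lemma continuous_cut (i : ℕ) (v : Bool) : Continuous (cut i v) := by
  refine continuous_jn.comp (continuous_lf.prodMk (continuous_pi fun x => ?_))
  have h1 : Continuous fun Z : Om => (rt Z x, rt (lf Z) (Nat.pair i x)) :=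
    ((continuous_apply x).comp continuous_rt).prodMk
      ((continuous_apply (Nat.pair i x)).comp (continuous_rt.comp continuous_lf))
  exact (continuous_of_discreteTopology (f := fun p : Bool × Bool => p.1 && (p.2 == v))).comp h1

lemma cut_eq (X : Om) (Y : Set ℕ) (i : ℕ) (v : Bool) :
    cut i v (jn X (chs Y)) = jn X (chs {z | z ∈ Y ∧ rt X (Nat.pair i z) = v}) := by
  unfold cut
  rw [lf_jn, rt_jn]
  congr 1
  funext z
  by_cases h1 : z ∈ Y
  · by_cases h2 : rt X (Nat.pair i z) = v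
    · simp [chs, h1, h2]
    · simp [chs, h1, h2]
  · simp [chs, h1]

structure CC (K : Set Op) (f : ℕ → ℕ → Bool) (X : Om) where
  F : Finset ℕ
  Y : Set ℕ
  inf : Y.Infinite
  lt : ∀ x ∈ F, ∀ y ∈ Y, x < y
  fair : Fair K f (jn X (chs Y))

instance : Preorder (CC K f X) where
  le c c' := c.F ⊆ c'.F ∧ (∀ x ∈ c'.F, x ∈ c.F ∨ x ∈ c.Y) ∧ c'.Y ⊆ c.Y
  le_refl c := ⟨Finset.Subset.refl _, fun x hx => Or.inl hx, Subset.rfl⟩
  le_trans a b c h h' := ⟨h.1.trans h'.1, fun x hx => by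
    rcases h'.2.1 x hx with h1 | h1
    · exact h.2.1 x h1
    · exact Or.inr (h.2.2 h1), h'.2.2.trans h.2.2⟩

/-- `G` is compatible with the condition -/
def CG (c : CC K f X) (G : Set ℕ) : Prop := (c.F : Set ℕ) ⊆ G ∧ ∀ x ∈ G, x ∈ c.F ∨ x ∈ c.Y

lemma CG.of_le {c c' : CC K f X} {G : Set ℕ} (h : CG c' G) (hc : c ≤ c') : CG c G := by
  refine ⟨fun x hx => h.1 (hc.1 hx), fun x hx => ?_⟩
  rcases h.2 x hx with h1 | h1
  · exact hc.2.1 x h1
  · exact Or.inr (hc.2.2 h1)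

lemma trunc (hK : Good K) {Y : Set ℕ} (hY : Y.Infinite) (hf : Fair K f (jn X (chs Y))) (b : ℕ) :
    {z | z ∈ Y ∧ b < z}.Infinite ∧ Fair K f (jn X (chs {z | z ∈ Y ∧ b < z})) := by
  obtain ⟨ρ, h1, h2⟩ := restrict hK hY hf ∅ b
  have he : {z | z ∈ Y ∧ b < z ∧ ∀ x ∈ (∅ : Finset ℕ), gof X x z = decide (x ∈ ρ)}
      = {z | z ∈ Y ∧ b < z} := by
    ext z
    simp
  rw [he] at h1 h2
  exact ⟨h1, h2⟩

lemma coh_fix {W : Op} (hW : ∀ s, IsOpen (W s)) {F : Finset ℕ} {Y : Set ℕ} {s : Node}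
    (h : val (opCoh F W) (jn X (chs Y)) s) : ∃ E : Finset ℕ, (E : Set ℕ) ⊆ Y ∧ ∃ b : ℕ,
      ∀ P : Om, (∀ k < b, P k = chf (F ∪ E) k) → val W (jn X P) s := by
  rcases h with rfl | ⟨E, h1, h2⟩
  · exact ⟨∅, by simp, 0, fun P _ => Or.inl rfl⟩
  · rw [lf_jn] at h2
    obtain ⟨b, hb⟩ := bits_of_isOpen (hW s) h2
    refine ⟨E, fun x hx => ?_, b, fun P hP => Or.inr (hb _ (jn_agree (fun _ _ => rfl) hP))⟩
    have := h1 x hx
    rw [rt_jn] at this
    exact chs_true.1 this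

lemma coh_ext (hK : Good K) (c : CC K f X) {E : Finset ℕ} (hE : (E : Set ℕ) ⊆ c.Y) (b : ℕ) :
    ∃ c', c ≤ c' ∧ c'.F = c.F ∪ E ∧ ∀ G : Set ℕ, CG c' G → ∀ k < b, chs G k = chf (c.F ∪ E) k := by
  classical
  obtain ⟨h1, h2⟩ := trunc hK c.inf c.fair (b + (c.F ∪ E).sup id)
  refine ⟨⟨c.F ∪ E, _, h1, ?_, h2⟩, ⟨Finset.subset_union_left, ?_, fun z hz => hz.1⟩, rfl, ?_⟩
  · intro x hx y hy
    have h3 : x ≤ (c.F ∪ E).sup id := Finset.le_sup (f := id) hx
    have h4 := hy.2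
    omega
  · intro x hx
    rcases Finset.mem_union.1 hx with hx | hx
    · exact Or.inl hx
    · exact Or.inr (hE hx)
  · rintro G ⟨hG1, hG2⟩ k hk
    simp only at hG1 hG2
    by_cases hkF : k ∈ c.F ∪ E
    · rw [chs_true.2 (hG1 (Finset.mem_coe.2 hkF))]
      unfold chf
      exact (decide_eq_true hkF).symm
    · have : chs G k = false := by
        rw [Bool.eq_false_iff]
        intro h
        rcases hG2 k (chs_true.1 h) with h3 | h3
        · exact hkF h3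
        · have := h3.2
          omega
      rw [this]
      unfold chf
      exact (decide_eq_false hkF).symm

lemma coh_step (hK : Good K) (hcoh : ∀ F, ∀ W ∈ K, opCoh F W ∈ K) (c : CC K f X) (m : ℕ) {W : Op}
    (hW : W ∈ K) : ∃ c', c ≤ c' ∧ ∀ G : Set ℕ, CG c' G →
      Ess (m * m) (val W (jn X (chs G))) →
      ∃ s, val W (jn X (chs G)) s ∧ s.length = m * m ∧ Real f (gm m) s := by
  classical
  by_cases hE : Ess (m * m) (val (opCoh c.F W) (jn X (chs c.Y)))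
  · obtain ⟨s, hs, hl, hr⟩ := c.fair m _ (hcoh c.F W hW) hE
    obtain ⟨E, hEY, b, hb⟩ := coh_fix (hK.isOpen W hW) hs
    obtain ⟨c', h1, -, h2⟩ := coh_ext hK c hEY b
    exact ⟨c', h1, fun G hG _ => ⟨s, hb _ (h2 G hG), hl, hr⟩⟩
  · unfold Ess at hE
    push Not at hE
    obtain ⟨s, hs, hl, n, hn⟩ := hE
    obtain ⟨E, hEY, b, hb⟩ := coh_fix (hK.isOpen W hW) hs
    obtain ⟨c', h1, -, h2⟩ := coh_ext hK c hEY b
    refine ⟨c', h1, fun G hG hGE => ?_⟩
    exfalso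
    obtain ⟨R, hR, hmem⟩ := hGE s (hb _ (h2 G hG)) hl n
    rw [val_cons] at hmem
    obtain ⟨b2, hb2⟩ := bits_of_isOpen (hK.isOpen W hW _) hmem
    have hGc := hG.of_le h1
    refine hn R hR (Or.inr ⟨(Finset.range b2).filter fun x => x ∈ G ∧ x ∉ c.F, ?_, ?_⟩)
    · intro x hx
      have hx' := (Finset.mem_filter.1 hx).2
      rw [rt_jn]
      rcases hGc.2 x hx'.1 with h3 | h3
      · exact absurd h3 hx'.2
      · exact chs_true.2 h3
    · rw [lf_jn]
      refine hb2 _ (jn_agree (fun _ _ => rfl) fun k hk => ?_)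
      by_cases hkG : k ∈ G
      · rw [chs_true.2 hkG]
        unfold chf
        refine decide_eq_true ?_
        by_cases hkF : k ∈ c.F
        · exact Finset.mem_union_left _ hkF
        · exact Finset.mem_union_right _ (Finset.mem_filter.2 ⟨Finset.mem_range.2 hk, hkG, hkF⟩)
      · have h4 : chs G k = false := by
          rw [Bool.eq_false_iff]
          intro h
          exact hkG (chs_true.1 h)
        rw [h4]
        unfold chf
        refine decide_eq_false fun h => hkG ?_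
        rcases Finset.mem_union.1 h with h | h
        · exact hGc.1 (Finset.mem_coe.2 h)
        · exact (Finset.mem_filter.1 h).2.1

lemma coh_grow (hK : Good K) (c : CC K f X) (n : ℕ) : ∃ c', c ≤ c' ∧ ∃ x ∈ c'.F, n < x := by
  obtain ⟨y, hy, hny⟩ : ∃ y ∈ c.Y, n < y := c.inf.exists_gt n
  obtain ⟨c', h1, h2, -⟩ := coh_ext hK c (E := {y}) (by simpa using hy) 0
  exact ⟨c', h1, y, by rw [h2]; simp, hny⟩

lemma coh_cut (hcut : ∀ i v, ∀ W ∈ K, opPre (cut i v) W ∈ K) (c : CC K f X) (i : ℕ) :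
    ∃ c', c ≤ c' ∧ ∃ v : Bool, ∀ y ∈ c'.Y, rt X (Nat.pair i y) = v := by
  have h1 : ∃ v : Bool, {z | z ∈ c.Y ∧ rt X (Nat.pair i z) = v}.Infinite := by
    by_contra hcon
    push Not at hcon
    apply c.inf
    refine ((hcon true).union (hcon false)).subset fun z hz => ?_
    by_cases h : rt X (Nat.pair i z) = true
    · exact Or.inl ⟨hz, h⟩
    · exact Or.inr ⟨hz, by simpa using h⟩
  obtain ⟨v, hv⟩ := h1
  have h2 : Fair K f (jn X (chs {z | z ∈ c.Y ∧ rt X (Nat.pair i z) = v})) := by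
    rw [← cut_eq]
    exact fair_pre c.fair (hcut i v)
  refine ⟨⟨c.F, _, hv, fun x hx y hy => c.lt x hx y hy.1, h2⟩,
    ⟨Finset.Subset.refl _, fun x hx => Or.inl hx, fun z hz => hz.1⟩, v, fun y hy => hy.2⟩

set_option linter.constructorNameAsVariable false in
theorem fair_coh (hK : Good K) (hcoh : ∀ F, ∀ W ∈ K, opCoh F W ∈ K)
    (hcut : ∀ i v, ∀ W ∈ K, opPre (cut i v) W ∈ K) (c0 : CC K f X) : ∃ G : Set ℕ, G.Infinite ∧
    (∀ i, ∃ v : Bool, {x | x ∈ G ∧ rt X (Nat.pair i x) ≠ v}.Finite) ∧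
    Fair K f (jn X (chs G)) := by
  have : Countable K := hK.ctbl.to_subtype
  let _ : Encodable K := Encodable.ofCountable K
  let D : ℕ × ℕ × ℕ × K → Order.Cofinal (CC K f X) := fun i =>
    { carrier := {c | (∃ x ∈ c.F, i.1 < x) ∧ (∃ v : Bool, ∀ y ∈ c.Y, rt X (Nat.pair i.2.1 y) = v) ∧
        ∀ G : Set ℕ, CG c G →
        Ess (i.2.2.1 * i.2.2.1) (val i.2.2.2.1 (jn X (chs G))) →
        ∃ s, val i.2.2.2.1 (jn X (chs G)) s ∧ s.length = i.2.2.1 * i.2.2.1 ∧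
          Real f (gm i.2.2.1) s}
      isCofinal := by
        intro c
        obtain ⟨c1, h1, h2⟩ := coh_step hK hcoh c i.2.2.1 i.2.2.2.2
        obtain ⟨c2, h3, h4⟩ := coh_grow hK c1 i.1
        obtain ⟨c3, h5, h6⟩ := coh_cut hcut c2 i.2.1
        refine ⟨c3, ⟨?_, h6, fun G hG => h2 G (hG.of_le (h3.trans h5))⟩, h1.trans (h3.trans h5)⟩
        obtain ⟨x, hx, hx'⟩ := h4
        exact ⟨x, h5.1 hx, hx'⟩ }
  let seq := Order.sequenceOfCofinals c0 D
  have hmono : Monotone seq := Order.sequenceOfCofinals.monotone _ _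
  let G : Set ℕ := {x | ∃ n, x ∈ (seq n).F}
  have hcpt : ∀ n, CG (seq n) G := by
    intro n
    refine ⟨fun x hx => ⟨n, hx⟩, ?_⟩
    rintro x ⟨k, hk⟩
    rcases le_total n k with h | h
    · exact (hmono h).2.1 x hk
    · exact Or.inl ((hmono h).1 hk)
  refine ⟨G, ?_, ?_, ?_⟩
  · rw [Set.infinite_iff_exists_gt]
    intro n
    have h5 := Order.sequenceOfCofinals.encode_mem c0 D (n, 0, 0, ⟨opZero, hK.zero⟩)
    obtain ⟨x, hx, hnx⟩ := h5.1
    exact ⟨x, ⟨_, hx⟩, hnx⟩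
  · intro i
    have h5 : ∃ N, ∃ v : Bool, ∀ y ∈ (seq N).Y, rt X (Nat.pair i y) = v :=
      ⟨_, (Order.sequenceOfCofinals.encode_mem c0 D (0, i, 0, ⟨opZero, hK.zero⟩)).2.1⟩
    obtain ⟨N, v, hv⟩ := h5
    refine ⟨v, (Finset.finite_toSet (seq N).F).subset ?_⟩
    rintro x ⟨hx, hxv⟩
    rcases (hcpt N).2 x hx with h6 | h6
    · exact h6
    · exact absurd (hv x h6) hxv
  · intro m W hW hE
    have h5 := Order.sequenceOfCofinals.encode_mem c0 D (0, 0, m, ⟨W, hW⟩)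
    exact h5.2.2 G (hcpt _) hE

end Pool.Agent.H56EMW
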