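import Pool.Agent.H56.EMW.Nx

set_option autoImplicit false

/-!
An `ω`-model of `EM` and `COH` which also solves countably many given closed problems (`WKL` among
them) and has a transitive colouring all of whose infinite sets realise every permutation.
-/

open Set Topology H860EM

namespace Pool.Agent.H56EMW

/-- the first `n` values of a point of Cantor space, as a binary string -/
def restr (P : ℕ → Bool) (n : ℕ) : List Bool := (List.range n).map P

lemma restr_agree {P P' : ℕ → Bool} {n : ℕ} (h : ∀ k < n, P' k = P k) : restr P' n = restr P n := by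
  unfold restr
  refine List.map_congr_left fun a ha => h a (List.mem_range.1 ha)

lemma restr_getD (τ : List Bool) {n : ℕ} (h : n ≤ τ.length) :
    restr (fun i => τ.getD i false) n = τ.take n := by
  unfold restr
  apply List.ext_getElem
  · simp [h]
  · intro i h1 h2
    simp only [List.length_map, List.length_range] at h1
    have h3 : i < τ.length := by omega
    simp [h3]

lemma restr_prefix (P : ℕ → Bool) {m n : ℕ} (h : m ≤ n) : restr P m <+: restr P n := by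
  obtain ⟨k, rfl⟩ := Nat.exists_eq_add_of_le h
  refine ⟨((List.range k).map (fun i => P (m + i))), ?_⟩
  unfold restr
  rw [List.range_add, List.map_append, List.map_map]
  rfl

/-- paths of trees -/
def pathRel : Set ((ℕ → Bool) × (ℕ → Bool)) :=
  {p | ∀ n, p.1 (Encodable.encode (restr p.2 n)) = true}

/-- the open operator of a closed relation -/
def opRel (F : Set ((ℕ → Bool) × (ℕ → Bool))) : Op := fun _ => {Z | (rt (lf Z), rt Z) ∉ F}

lemma isOpen_opRel {F : Set ((ℕ → Bool) × (ℕ → Bool))} (hF : IsClosed F) (s : Node) :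
    IsOpen (opRel F s) := by
  have h : Continuous fun Z : Om => ((rt (lf Z), rt Z) : Om × Om) :=
    (continuous_rt.comp continuous_lf).prodMk continuous_rt
  exact hF.isOpen_compl.preimage h

lemma isOpen_opRel_path (s : Node) : IsOpen (opRel pathRel s) := by
  refine isOpen_of_bits fun Z hZ => ?_
  have h1 : ∃ n, rt (lf Z) (Encodable.encode (restr (rt Z) n)) ≠ true := by
    by_contra hcon
    push Not at hcon
    exact hZ hcon
  obtain ⟨n, hn⟩ := h1
  refine ⟨2 * n + 1 + (2 * (2 * Encodable.encode (restr (rt Z) n) + 1) + 1), fun Z' h' => ?_⟩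
  intro hcon
  apply hn
  have h2 : restr (rt Z') n = restr (rt Z) n := by
    refine restr_agree fun k hk => ?_
    simp only [rt]
    exact h' _ (by omega)
  have h3 := hcon n
  simp only at h3
  rw [h2] at h3
  rw [← h3]
  simp only [rt, lf]
  exact (h' _ (by simp only [rt] at *; omega)).symm

/-- König's lemma -/
lemma konig {T : Set ℕ} (hT : ∀ σ τ : List Bool, σ <+: τ → Encodable.encode τ ∈ T →
    Encodable.encode σ ∈ T) (hi : {σ : List Bool | Encodable.encode σ ∈ T}.Infinite) :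
    ∃ P : ℕ → Bool, (chs T, P) ∈ pathRel := by
  let C : ℕ → Set (ℕ → Bool) := fun n => {P | Encodable.encode (restr P n) ∈ T}
  have hcl : ∀ n, IsClosed (C n) := by
    intro n
    rw [← isOpen_compl_iff]
    refine isOpen_of_bits fun P hP => ⟨n, fun P' h' hP' => hP ?_⟩
    have := restr_agree h'
    simp only [C, mem_ofPred_eq] at hP' ⊢
    rw [this] at hP'
    exact hP'
  have hne : ∀ n, (C n).Nonempty := by
    intro n
    have h1 : ∃ τ : List Bool, Encodable.encode τ ∈ T ∧ n ≤ τ.length := by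
      by_contra hcon
      push Not at hcon
      exact hi ((List.finite_length_lt Bool n).subset fun τ hτ => hcon τ hτ)
    obtain ⟨τ, h2, h3⟩ := h1
    refine ⟨fun i => τ.getD i false, ?_⟩
    simp only [C, mem_ofPred_eq]
    rw [restr_getD τ h3]
    exact hT _ _ (List.take_prefix _ _) h2
  have hmono : ∀ n, C (n + 1) ⊆ C n := fun n P hP => hT _ _ (restr_prefix P (Nat.le_succ n)) hP
  obtain ⟨P, hP⟩ := IsCompact.nonempty_iInter_of_sequence_nonempty_isCompact_isClosed C hmono hne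
    (hcl 0).isCompact hcl
  refine ⟨P, fun n => ?_⟩
  exact chs_true.2 (mem_iInter.1 hP n)

def ixOp' (F : ℕ → Set ((ℕ → Bool) × (ℕ → Bool))) :
    Ix ⊕ (ℕ ⊕ (Finset ℕ ⊕ ((ℕ × Bool) ⊕ Bool))) → Op → Op → Op
  | .inl i, O, W => ixOp i O W
  | .inr (.inl k), _, _ => opRel (F k)
  | .inr (.inr (.inl E)), W, _ => opCoh E W
  | .inr (.inr (.inr (.inl p))), W, _ => opPre (cut p.1 p.2) W
  | .inr (.inr (.inr (.inr true))), V, W => opPull V W
  | .inr (.inr (.inr (.inr false))), V, W => opImg V W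

theorem exists_good' (F : ℕ → Set ((ℕ → Bool) × (ℕ → Bool)))
    (hF : ∀ k s, IsOpen (opRel (F k) s)) : ∃ K : Set Op, Good K ∧ (∀ k, opRel (F k) ∈ K) ∧
      (∀ E, ∀ W ∈ K, opCoh E W ∈ K) ∧ (∀ i v, ∀ W ∈ K, opPre (cut i v) W ∈ K) ∧
      (∀ V ∈ K, ∀ W ∈ K, opPull V W ∈ K) ∧ (∀ V ∈ K, ∀ W ∈ K, opImg V W ∈ K) := by
  obtain ⟨K, h0, h1, h2', h3⟩ := exists_closure (ixOp' F) opZero (fun W => ∀ s, IsOpen (W s))
    isOpen_opZero (by
      rintro (i | k | E | p | (_ | _)) a b ha hb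
      · exact ixOp_open i a b ha hb
      · exact hF k
      · exact isOpen_opCoh ha E
      · exact fun s => isOpen_opPre ha (continuous_cut p.1 p.2) s
      · exact fun s => isOpen_opImg ha hb s
      · exact fun s => isOpen_opPull ha hb s)
  have h2 : ∀ i, ∀ a ∈ K, ∀ b ∈ K, ixOp i a b ∈ K := fun i => h2' (.inl i)
  refine ⟨K,
    { ctbl := h1
      isOpen := h3
      wkl := fun O hO W hW => h2 .wkl O hO W hW
      cyl := fun A m O hO => h2 (.cyl A m) O hO O hO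
      neg := fun A m t n O hO W hW => h2 (.neg A m t n) O hO W hW
      preLf := fun W hW => h2 .preLf W hW W hW
      prePhi := fun U ρ b W hW => h2 (.prePhi U ρ b) W hW W hW
      prePsi := fun κ k W hW => h2 (.prePsi κ k) W hW W hW
      emV := fun F m0 N k W hW => h2 (.emV F m0 N k) W hW W hW
      emN := fun T k n W hW => h2 (.emN T k n) W hW W hW
      comp := fun W hW V hV => h2 .comp W hW V hV
      sing := fun V hV => h2 .sing V hV V hV
      zero := h2 .zero _ h0 _ h0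
      succ := h2 .succ _ h0 _ h0
      left := h2 .left _ h0 _ h0
      right := h2 .right _ h0 _ h0
      read := h2 .read _ h0 _ h0
      read0 := h2 .read0 _ h0 _ h0
      pair := fun V hV W hW => h2 .pair V hV W hW
      cmp := fun V hV W hW => h2 .cmp V hV W hW
      prec := fun V hV W hW => h2 .prec V hV W hW
      rfind := fun V hV => h2 .rfind V hV V hV
      join := fun V hV W hW => h2 .join V hV W hW }, fun k => h2' (.inr (.inl k)) _ h0 _ h0,
    fun E W hW => h2' (.inr (.inr (.inl E))) W hW W hW,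
    fun i v W hW => h2' (.inr (.inr (.inr (.inl (i, v))))) W hW W hW,
    fun V hV W hW => h2' (.inr (.inr (.inr (.inr true)))) V hV W hW,
    fun V hV W hW => h2' (.inr (.inr (.inr (.inr false)))) V hV W hW⟩

lemma solveCoh {K : Set Op} {f : ℕ → ℕ → Bool} (hK : Good K)
    (hcoh : ∀ F, ∀ W ∈ K, opCoh F W ∈ K) (hcut : ∀ i v, ∀ W ∈ K, opPre (cut i v) W ∈ K)
    {Y : Om} (hY : Fair K f Y) {R : Set ℕ} (hR : Cf K Y (chi R)) :
    ∃ Y' : Om, Fair K f Y' ∧ (∀ G, Cf K Y G → Cf K Y' G) ∧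
      ∃ G : Set ℕ, G.Infinite ∧
        (∀ i, {x | x ∈ G ∧ Nat.pair i x ∈ R}.Finite ∨ {x | x ∈ G ∧ Nat.pair i x ∉ R}.Finite) ∧
        Cf K Y' (chi G) := by
  have h1 : Fair K f (jn Y (chs R)) := fair_comp hK hY hR
  have h2 : Fair K f (jn (jn Y (chs R)) (chs univ)) := fair_comp hK h1 (cf_univ hK _)
  obtain ⟨G, h3, h4, h5⟩ := fair_coh hK hcoh hcut
    (⟨∅, univ, infinite_univ, by simp, h2⟩ : CC K f (jn Y (chs R)))
  refine ⟨jn (jn Y (chs R)) (chs G), h5, ?_, G, h3, ?_, cf_rt hK _ G⟩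
  · intro F hF
    apply cf_lf hK
    rw [lf_jn]
    apply cf_lf hK
    rw [lf_jn]
    exact hF
  · intro i
    obtain ⟨v, hv⟩ := h4 i
    rw [rt_jn] at hv
    cases v with
    | true =>
      right
      refine hv.subset fun x hx => ⟨hx.1, fun h => hx.2 (chs_true.1 h)⟩
    | false =>
      left
      refine hv.subset fun x hx => ⟨hx.1, ?_⟩
      rw [chs_true.2 hx.2]
      simp

lemma solveRel {K : Set Op} {f : ℕ → ℕ → Bool} (hK : Good K) {Y : Om} (hY : Fair K f Y)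
    {A : Set ℕ} (hA : Cf K Y (chi A)) {F : Set ((ℕ → Bool) × (ℕ → Bool))} (hF : opRel F ∈ K)
    (hne : ∃ P, (chs A, P) ∈ F) :
    ∃ Y' : Om, Fair K f Y' ∧ (∀ G, Cf K Y G → Cf K Y' G) ∧
      ∃ B : Set ℕ, (chs A, chs B) ∈ F ∧ Cf K Y' (chi B) := by
  have h1 : Fair K f (jn Y (chs A)) := fair_comp hK hY hA
  obtain ⟨P, hP⟩ := hne
  obtain ⟨P', h2, h3⟩ := fair_wkl hK h1 hF ⟨P, by simp [opRel, hP]⟩
  have h4 : (chs A, P') ∈ F := by
    by_contra hcon
    exact h2 (by simp [opRel, hcon])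
  have h5 : chs {n | P' n = true} = P' := by
    funext n
    simp [chs]
  refine ⟨jn (jn Y (chs A)) P', h3, ?_, {n | P' n = true}, by rw [h5]; exact h4, ?_⟩
  · intro G hG
    apply cf_lf hK
    rw [lf_jn]
    apply cf_lf hK
    rw [lf_jn]
    exact hG
  · have h6 := cf_rt hK (jn Y (chs A)) {n | P' n = true}
    rw [h5] at h6
    exact h6

theorem main (F : ℕ → Set ((ℕ → Bool) × (ℕ → Bool))) (hF : ∀ k s, IsOpen (opRel (F k) s)) :
    ∃ M : Set (Set ℕ), M.Countable ∧ TuringIdeal M ∧ EM M ∧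
      (∀ R ∈ M, ∃ G ∈ M, G.Infinite ∧ ∀ i,
        {x | x ∈ G ∧ Nat.pair i x ∈ R}.Finite ∨ {x | x ∈ G ∧ Nat.pair i x ∉ R}.Finite) ∧
      (∀ k, ∀ A ∈ M, (∃ P, (chs A, P) ∈ F k) → ∃ B ∈ M, (chs A, chs B) ∈ F k) ∧
      (∀ G ∈ M, G.Infinite → ∀ C ∈ M, pull G C ∈ M) ∧ (∀ G ∈ M, ∀ H ∈ M, img G H ∈ M) ∧
      ∃ C ∈ M, (∃ v : ℕ → ℚ, ∀ x y, col C x y = decide (v y < v x)) ∧
      ∀ H ∈ M, H.Infinite → ∀ (l : ℕ) (π : Equiv.Perm (Fin l)),
        Realises (col C) H (permPattern π) := by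
  classical
  obtain ⟨K, hK, hKF, hcoh, hcut, hpull, himg⟩ := exists_good' F hF
  obtain ⟨v, hv⟩ := exists_base hK
  obtain ⟨en, hen⟩ := hK.ctbl.exists_eq_range ⟨opZero, hK.zero⟩
  let R : FP K (fv v) → ℕ → FP K (fv v) → Prop := fun x n y =>
    ∀ C : Set ℕ, (∀ a b, x.X ∈ gr (en (Nat.unpair n).1) a b ↔ b ∈ chi C a) →
      (∃ H : Set ℕ, H.Infinite ∧ FTransitive (col C) H ∧ Cf K y.X (chi H)) ∧
      (∃ G : Set ℕ, G.Infinite ∧
        (∀ i, {x | x ∈ G ∧ Nat.pair i x ∈ C}.Finite ∨ {x | x ∈ G ∧ Nat.pair i x ∉ C}.Finite) ∧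
        Cf K y.X (chi G)) ∧
      ((∃ P, (chs C, P) ∈ F (Nat.unpair n).2) →
        ∃ B : Set ℕ, (chs C, chs B) ∈ F (Nat.unpair n).2 ∧ Cf K y.X (chi B))
  have hR : ∀ x n y, x ≤ y → ∃ y', y ≤ y' ∧ R x n y' := by
    intro x n y hxy
    by_cases h : ∃ C : Set ℕ, ∀ a b, x.X ∈ gr (en (Nat.unpair n).1) a b ↔ b ∈ chi C a
    · obtain ⟨C, hC⟩ := h
      have hen' : en (Nat.unpair n).1 ∈ K := by rw [hen]; exact mem_range_self _
      have hCy : Cf K y.X (chi C) := hxy _ ⟨en (Nat.unpair n).1, hen', hC⟩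
      obtain ⟨Y1, h1', h2', H, h3, h4, h5'⟩ := solve hK y.fair hCy
      obtain ⟨Y', h1, h2'', G, g1, g2, g3⟩ := solveCoh hK hcoh hcut h1' (h2' _ hCy)
      have h2 : ∀ G, Cf K y.X G → Cf K Y' G := fun G hG => h2'' _ (h2' _ hG)
      have h5 : Cf K Y' (chi H) := h2'' _ h5'
      have huniq : ∀ C' : Set ℕ, (∀ a b, x.X ∈ gr (en (Nat.unpair n).1) a b ↔ b ∈ chi C' a) →
          C' = C := by
        intro C' hC'
        ext a
        have e1 : (1 : ℕ) ∈ chi C' a ↔ 1 ∈ chi C a := by rw [← hC' a 1, ← hC a 1]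
        rw [mem_chi, mem_chi] at e1
        simpa using e1
      by_cases hP : ∃ P, (chs C, P) ∈ F (Nat.unpair n).2
      · obtain ⟨Y'', h6, h7, B, h8, h9⟩ := solveRel hK h1 (h2 _ hCy) (hKF _) hP
        refine ⟨⟨Y'', h6⟩, fun G hG => h7 _ (h2 _ hG), fun C' hC' => ?_⟩
        rw [huniq C' hC']
        exact ⟨⟨H, h3, h4, h7 _ h5⟩, ⟨G, g1, g2, h7 _ g3⟩, fun _ => ⟨B, h8, h9⟩⟩
      · refine ⟨⟨Y', h1⟩, h2, fun C' hC' => ?_⟩
        rw [huniq C' hC']
        exact ⟨⟨H, h3, h4, h5⟩, ⟨G, g1, g2, g3⟩, fun h => absurd h hP⟩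
    · exact ⟨y, le_rfl, fun C hC => absurd ⟨C, hC⟩ h⟩
  obtain ⟨s, hs0, hsm, hs⟩ := bookkeeping R hR ⟨orc v, hv⟩
  let M : Set (Set ℕ) := {A | ∃ n, Cf K (s n).X (chi A)}
  let C0 : Set ℕ := {n | orc v n = true}
  have hC0 : Cf K (s 0).X (chi C0) := by
    rw [hs0]
    refine ⟨opRead0, hK.read0, fun x y => ?_⟩
    rw [opRead0, gr_mkOp, mem_chi]
    simp only [mem_ofPred_eq, C0]
    by_cases h : orc v x = true
    · simp [h, eq_comm]
    · simp only [Bool.not_eq_true] at h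
      simp [h, eq_comm]
  have hcol : ∀ x y, col C0 x y = fv v x y := by
    intro x y
    rw [← orc_pair]
    by_cases h : orc v (Nat.pair x y) = true
    · rw [h]
      have h1 : Nat.pair x y ∈ C0 := h
      simp [col, h1]
    · have h' : orc v (Nat.pair x y) = false := by simpa using h
      rw [h']
      have h1 : Nat.pair x y ∉ C0 := h
      simp [col, h1]
  have hcol' : col C0 = fv v := by
    funext x y
    exact hcol x y
  have hMc : M.Countable := by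
    have h1 : M ⊆ ⋃ n : ℕ, ⋃ V ∈ K, {A | ∀ x y, (s n).X ∈ gr V x y ↔ y ∈ chi A x} := by
      rintro A ⟨n, V, hV, h⟩
      exact mem_iUnion.2 ⟨n, mem_iUnion₂.2 ⟨V, hV, h⟩⟩
    refine Set.Countable.mono h1 (countable_iUnion fun n => hK.ctbl.biUnion fun V _ => ?_)
    refine Set.Subsingleton.countable ?_
    intro A hA B hB
    ext a
    have e1 : (1 : ℕ) ∈ chi A a ↔ 1 ∈ chi B a := by rw [← hA a 1, ← hB a 1]
    rw [mem_chi, mem_chi] at e1
    simpa using e1
  refine ⟨M, hMc, ⟨⟨C0, 0, hC0⟩, ?_, ?_⟩, ?_, ?_, ?_, ?_, ?_, C0, ⟨0, hC0⟩, ⟨v, fun x y => hcol x y⟩, ?_⟩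
  · rintro A ⟨n, hA⟩ B ⟨k, hB⟩
    obtain ⟨V, hV, hV'⟩ := hsm (le_max_left n k) _ hA
    obtain ⟨W, hW, hW'⟩ := hsm (le_max_right n k) _ hB
    refine ⟨max n k, opJoin V W, hK.join V hV W hW, fun x y => ?_⟩
    rw [opJoin, gr_mkOp]
    simp only [mem_ofPred_eq, hV', hW', mem_chi, tjoin]
    rcases Nat.mod_two_eq_zero_or_one x with h | h
    · simp [h]
    · simp [h]
  · rintro A ⟨n, hA⟩ B hB
    exact ⟨n, cf_of_recursiveIn hK hA (RecursiveIn.iff_nat.1 hB)⟩
  · rintro C ⟨n, V, hV, hV'⟩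
    rw [hen] at hV
    obtain ⟨k, rfl⟩ := hV
    obtain ⟨m, hm⟩ := hs n (Nat.pair k 0)
    obtain ⟨⟨H, h1, h2, h3⟩, -⟩ := hm C (by simpa using hV')
    exact ⟨H, ⟨m, h3⟩, h1, h2⟩
  · rintro C ⟨n, V, hV, hV'⟩
    rw [hen] at hV
    obtain ⟨k, rfl⟩ := hV
    obtain ⟨m, hm⟩ := hs n (Nat.pair k 0)
    obtain ⟨-, ⟨G, g1, g2, g3⟩, -⟩ := hm C (by simpa using hV')
    exact ⟨G, ⟨m, g3⟩, g1, g2⟩
  · rintro j C ⟨n, V, hV, hV'⟩ hP
    rw [hen] at hV
    obtain ⟨k, rfl⟩ := hV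
    obtain ⟨m, hm⟩ := hs n (Nat.pair k j)
    obtain ⟨-, -, h⟩ := hm C (by simpa using hV')
    obtain ⟨B, h1, h2⟩ := h (by simpa using hP)
    exact ⟨B, ⟨m, h2⟩, by simpa using h1⟩
  · rintro G ⟨n, hG⟩ hi C ⟨k, hC⟩
    exact ⟨max n k, cf_pull hpull hi (hsm (le_max_left n k) _ hG) (hsm (le_max_right n k) _ hC)⟩
  · rintro G ⟨n, hG⟩ H ⟨k, hH⟩
    exact ⟨max n k, cf_img himg (hsm (le_max_left n k) _ hG) (hsm (le_max_right n k) _ hH)⟩
  · rintro H ⟨n, hH⟩ hinf l π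
    rw [hcol']
    exact realises_of_fair hK (s n).fair hinf hH π

end Pool.Agent.H56EMW
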