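import Pool.Agent.H56.EMW.Coh

set_option autoImplicit false

/-! Pulling back a colouring along `x ↦ the least element of G above x`. -/

open Set Topology H860EM

namespace Pool.Agent.H56EMW

variable {K : Set Op} {f : ℕ → ℕ → Bool} {X : Om}

/-- `a` is the least element of `G` which is at least `x` -/
def IsNx (G : Set ℕ) (x a : ℕ) : Prop := x ≤ a ∧ a ∈ G ∧ ∀ z < a, x ≤ z → z ∉ G

lemma IsNx.unique {G : Set ℕ} {x a b : ℕ} (ha : IsNx G x a) (hb : IsNx G x b) : a = b := by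
  rcases Nat.lt_trichotomy a b with h | h | h
  · exact absurd ha.2.1 (hb.2.2 a h ha.1)
  · exact h
  · exact absurd hb.2.1 (ha.2.2 b h hb.1)

lemma exists_nx {G : Set ℕ} (hG : G.Infinite) (x : ℕ) : ∃ a, IsNx G x a := by
  classical
  have h : ∃ a, a ∈ G ∧ x ≤ a := by
    obtain ⟨a, h1, h2⟩ := hG.exists_gt x
    exact ⟨a, h1, h2.le⟩
  refine ⟨Nat.find h, (Nat.find_spec h).2, (Nat.find_spec h).1, fun z hz hxz hzG => ?_⟩
  exact Nat.find_min h hz ⟨hzG, hxz⟩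

/-- the pulled back colouring -/
def pull (G C : Set ℕ) : Set ℕ :=
  {n | ∃ a b, IsNx G (Nat.unpair n).1 a ∧ IsNx G (Nat.unpair n).2 b ∧ Nat.pair a b ∈ C}

/-- the image of a set -/
def img (G H : Set ℕ) : Set ℕ := {a | ∃ x, IsNx G x a ∧ x ∈ H}

def opNx (V : Op) (x a : ℕ) : Set Om := {Z | x ≤ a ∧ Z ∈ gr V a 1 ∧ ∀ z < a, x ≤ z → Z ∈ gr V z 0}

def opPull (V W : Op) : Op := mkOp fun n y =>
  {Z | ∃ a b, Z ∈ opNx V (Nat.unpair n).1 a ∧ Z ∈ opNx V (Nat.unpair n).2 b ∧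
    Z ∈ gr W (Nat.pair a b) y}

def opImg (V W : Op) : Op := mkOp fun a y =>
  {Z | ∃ v : Bool, if v then (y = 1 ∧ ∃ x, Z ∈ opNx V x a ∧ Z ∈ gr W x 1) else
    (y = 0 ∧ ∃ w : Bool, if w then Z ∈ gr V a 0 else
      ∀ x < a + 1, ∃ u : Bool, if u then Z ∈ gr W x 0 else ∃ z, (x ≤ z ∧ z < a) ∧ Z ∈ gr V z 1)}

lemma isOpen_opNx {V : Op} (hV : ∀ s, IsOpen (V s)) (x a : ℕ) : IsOpen (opNx V x a) := by
  refine IsOpen.and isOpen_const (IsOpen.and (hV _) (isOpen_blt a fun z _ => ?_))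
  by_cases h : x ≤ z
  · simp only [h, forall_true_left]
    exact hV _
  · simp [h]

lemma isOpen_opPull {V W : Op} (hV : ∀ s, IsOpen (V s)) (hW : ∀ s, IsOpen (W s)) (s : Node) :
    IsOpen (opPull V W s) :=
  isOpen_mkOp (fun _ _ => isOpen_ex fun a => isOpen_ex fun b => IsOpen.and (isOpen_opNx hV _ a)
    (IsOpen.and (isOpen_opNx hV _ b) (hW _))) s

lemma isOpen_opImg {V W : Op} (hV : ∀ s, IsOpen (V s)) (hW : ∀ s, IsOpen (W s)) (s : Node) :
    IsOpen (opImg V W s) := by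
  refine isOpen_mkOp (fun a y => isOpen_ex fun v => ?_) s
  cases v with
  | true =>
    simp only [if_true]
    exact IsOpen.and isOpen_const (isOpen_ex fun x => IsOpen.and (isOpen_opNx hV x a) (hW _))
  | false =>
    simp only [Bool.false_eq_true, if_false]
    refine IsOpen.and isOpen_const (isOpen_ex fun w => ?_)
    cases w with
    | true => simp only [if_true]; exact hV _
    | false =>
      simp only [Bool.false_eq_true, if_false]
      refine isOpen_blt _ fun x _ => isOpen_ex fun u => ?_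
      cases u with
      | true => simp only [if_true]; exact hW _
      | false =>
        simp only [Bool.false_eq_true, if_false]
        exact isOpen_ex fun z => IsOpen.and isOpen_const (hV _)

lemma chi_one {A : Set ℕ} {x : ℕ} : 1 ∈ chi A x ↔ x ∈ A := by
  rw [mem_chi]; simp

lemma chi_zero {A : Set ℕ} {x : ℕ} : 0 ∈ chi A x ↔ x ∉ A := by
  rw [mem_chi]; simp

lemma mem_opNx {V : Op} {G : Set ℕ} (hV : ∀ x y, X ∈ gr V x y ↔ y ∈ chi G x) (x a : ℕ) :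
    X ∈ opNx V x a ↔ IsNx G x a := by
  simp only [opNx, IsNx, mem_ofPred_eq, hV, chi_one, chi_zero]

lemma cf_pull (hp : ∀ V ∈ K, ∀ W ∈ K, opPull V W ∈ K) {G C : Set ℕ} (hi : G.Infinite)
    (hG : Cf K X (chi G)) (hC : Cf K X (chi C)) : Cf K X (chi (pull G C)) := by
  obtain ⟨V, hV, hV'⟩ := hG
  obtain ⟨W, hW, hW'⟩ := hC
  refine ⟨opPull V W, hp V hV W hW, fun n y => ?_⟩
  rw [opPull, gr_mkOp]
  simp only [mem_ofPred_eq, mem_opNx hV', hW']
  rw [mem_chi]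
  constructor
  · rintro ⟨a, b, h1, h2, h3⟩
    rw [mem_chi] at h3
    rcases h3 with ⟨rfl, h3⟩ | ⟨rfl, h3⟩
    · exact Or.inl ⟨rfl, a, b, h1, h2, h3⟩
    · refine Or.inr ⟨rfl, ?_⟩
      rintro ⟨a', b', h1', h2', h3'⟩
      rw [h1'.unique h1, h2'.unique h2] at h3'
      exact h3 h3'
  · obtain ⟨a, ha⟩ := exists_nx hi (Nat.unpair n).1
    obtain ⟨b, hb⟩ := exists_nx hi (Nat.unpair n).2
    rintro (⟨rfl, a', b', h1', h2', h3'⟩ | ⟨rfl, h⟩)
    · exact ⟨a', b', h1', h2', chi_one.2 h3'⟩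
    · exact ⟨a, b, ha, hb, chi_zero.2 fun h3 => h ⟨a, b, ha, hb, h3⟩⟩

lemma cf_img (hp : ∀ V ∈ K, ∀ W ∈ K, opImg V W ∈ K) {G H : Set ℕ}
    (hG : Cf K X (chi G)) (hH : Cf K X (chi H)) : Cf K X (chi (img G H)) := by
  obtain ⟨V, hV, hV'⟩ := hG
  obtain ⟨W, hW, hW'⟩ := hH
  refine ⟨opImg V W, hp V hV W hW, fun a y => ?_⟩
  rw [opImg, gr_mkOp]
  simp only [mem_ofPred_eq, Bool.exists_bool, Bool.false_eq_true, if_false, if_true,
    mem_opNx hV', hV', hW', chi_one, chi_zero]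
  rw [mem_chi]
  constructor
  · rintro (⟨rfl, h⟩ | ⟨rfl, x, h1, h2⟩)
    · refine Or.inr ⟨rfl, ?_⟩
      rintro ⟨x, h1, h2⟩
      rcases h with h | h
      · rcases h x (by have := h1.1; omega) with ⟨z, ⟨h3, h4⟩, h5⟩ | h3
        · exact h1.2.2 z h4 h3 h5
        · exact h3 h2
      · exact h h1.2.1
    · exact Or.inl ⟨rfl, x, h1, h2⟩
  · rintro (⟨rfl, x, h1, h2⟩ | ⟨rfl, h⟩)
    · exact Or.inr ⟨rfl, x, h1, h2⟩
    · refine Or.inl ⟨rfl, ?_⟩
      by_cases ha : a ∈ G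
      · left
        intro x hx
        by_cases hxH : x ∈ H
        · left
          by_contra hcon
          push Not at hcon
          exact h ⟨x, ⟨by omega, ha, fun z hz hxz => hcon z ⟨hxz, hz⟩⟩, hxH⟩
        · exact Or.inr hxH
      · exact Or.inr ha

lemma img_infinite {G H : Set ℕ} (hG : G.Infinite) (hH : H.Infinite) : (img G H).Infinite := by
  rw [Set.infinite_iff_exists_gt]
  intro n
  obtain ⟨x, hx, hn⟩ := hH.exists_gt n
  obtain ⟨a, ha⟩ := exists_nx hG x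
  exact ⟨a, ⟨x, ha, hx⟩, lt_of_lt_of_le hn ha.1⟩

lemma col_pull {G C : Set ℕ} {x y a b : ℕ} (ha : IsNx G x a) (hb : IsNx G y b) :
    col (pull G C) x y = col C a b := by
  unfold col
  congr 1
  refine propext ⟨?_, fun h => ⟨a, b, ?_, ?_, h⟩⟩
  · rintro ⟨a', b', h1, h2, h3⟩
    rw [Nat.unpair_pair] at h1 h2
    rw [h1.unique ha, h2.unique hb] at h3
    exact h3
  · rw [Nat.unpair_pair]; exact ha
  · rw [Nat.unpair_pair]; exact hb

lemma realises_pull {G C H : Set ℕ} {l : ℕ} {p : Fin l → Fin l → Bool}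
    (h : Realises (col C) (img G H) p) : Realises (col (pull G C)) H p := by
  obtain ⟨x, h1, h2, h3⟩ := h
  choose y hy1 hy2 using h2
  refine ⟨y, ?_, hy2, fun i j hij => ?_⟩
  · intro i j hij
    by_contra hcon
    rw [not_lt] at hcon
    have h4 := h1 hij
    exact (hy1 j).2.2 (x i) h4 (hcon.trans (hy1 i).1) (hy1 i).2.1
  · rw [col_pull (hy1 i) (hy1 j)]
    exact h3 i j hij

lemma stable_pull {G C : Set ℕ} (hG : G.Infinite)
    (h : ∀ x, ∃ v : Bool, {y | y ∈ G ∧ col C x y ≠ v}.Finite) (x : ℕ) :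
    ∃ v : Bool, {y | col (pull G C) x y ≠ v}.Finite := by
  obtain ⟨a, ha⟩ := exists_nx hG x
  obtain ⟨v, hv⟩ := h a
  refine ⟨v, ?_⟩
  obtain ⟨n, hn⟩ := hv.bddAbove
  refine (finite_Iic n).subset fun y hy => ?_
  obtain ⟨b, hb⟩ := exists_nx hG y
  simp only [mem_ofPred_eq] at hy
  rw [col_pull ha hb] at hy
  exact hb.1.trans (hn ⟨hb.2.1, hy⟩)

end Pool.Agent.H56EMW
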